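import Pool.Agent.N798.W.Stm
import Pool.Agent.N75.HS.NP

/-!
Project HW (helper798), step GP (helper607): the sequence `p_(m+1) - (m + 1)`.
-/

set_option autoImplicit false

namespace Pool.Agent.N607.HW

open Pool.Agent.N798.HW

theorem nth_mono {m n : ℕ} (h : m < n) : Nat.nth Nat.Prime m < Nat.nth Nat.Prime n :=
  Nat.nth_strictMono Nat.infinite_setOfPred_prime h

theorem odd_nth {m : ℕ} (hm : 1 ≤ m) : Nat.nth Nat.Prime m % 2 = 1 := by
  have h1 := Nat.add_two_le_nth_prime m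
  rcases (Nat.prime_nth_prime m).eq_two_or_odd with h | h
  · omega
  · exact h

theorem step {m : ℕ} (hm : 1 ≤ m) : Nat.nth Nat.Prime m - (m + 1) <
    Nat.nth Nat.Prime (m + 1) - (m + 1 + 1) := by
  have h1 := Nat.add_two_le_nth_prime m
  have h2 := nth_mono (Nat.lt_succ_self m)
  have h3 := odd_nth hm
  have h4 := odd_nth (hm.trans (Nat.le_succ m))
  have h5 : Nat.nth Nat.Prime m.succ = Nat.nth Nat.Prime (m + 1) := rfl
  rw [h5] at h2 h4
  omega

/-- (GP) the sequence `p_(m+1) - (m + 1)` -/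
theorem gp : S_GP := by
  refine ⟨?_, ?_, ?_⟩
  · intro m n hm hmn
    induction n, hmn using Nat.le_induction with
    | base => exact step hm
    | succ n hn ih =>
      have h1 : 1 ≤ n := by
        have : m + 1 ≤ n := hn
        omega
      exact lt_trans ih (step h1)
  · show 1 ≤ Nat.nth Nat.Prime 1 - (1 + 1)
    have h1 := Nat.add_two_le_nth_prime 1
    omega
  · obtain ⟨-, -, C, n0, h⟩ := Pool.Agent.N75.HS.np
    refine ⟨C + 1, max n0 (⌈Real.exp (2 ^ (C + 1))⌉₊ + 2), fun n hn => ?_⟩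
    have hn0 : n0 ≤ n := (le_max_left _ _).trans hn
    have hn1 : ⌈Real.exp (2 ^ (C + 1))⌉₊ + 2 ≤ n := (le_max_right _ _).trans hn
    have h1 := h (n + 1) (by omega)
    have h2 : Real.exp (2 ^ (C + 1)) ≤ n := (Nat.le_ceil _).trans (by
      exact_mod_cast (by omega : ⌈Real.exp (2 ^ (C + 1))⌉₊ ≤ n))
    have h3 : (2 : ℝ) ≤ n := by exact_mod_cast (by omega : 2 ≤ n)
    have hpos : (0 : ℝ) < n := by linarith
    have h4 : (2 : ℝ) ^ (C + 1) ≤ Real.log n := (Real.le_log_iff_exp_le hpos).2 h2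
    have h5 : Real.log ((n + 1 : ℕ) : ℝ) ≤ 2 * Real.log n := by
      have h6 : Real.log ((n + 1 : ℕ) : ℝ) ≤ Real.log (n * n) := by
        refine Real.log_le_log (by positivity) ?_
        push_cast
        nlinarith
      rw [Real.log_mul hpos.ne' hpos.ne'] at h6
      linarith
    have h6 : (0 : ℝ) ≤ Real.log ((n + 1 : ℕ) : ℝ) := Real.log_natCast_nonneg _
    have h7 : (0 : ℝ) ≤ Real.log n := Real.log_natCast_nonneg _
    have h8 : ((Nat.nth Nat.Prime n - (n + 1) : ℕ) : ℝ) ≤ ((Nat.nth Nat.Prime (n + 1 - 1) : ℕ) : ℝ) := by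
      rw [Nat.add_sub_cancel]
      exact_mod_cast Nat.sub_le _ _
    show ((Nat.nth Nat.Prime n - (n + 1) : ℕ) : ℝ) ≤ n * Real.log n ^ (C + 1)
    calc ((Nat.nth Nat.Prime n - (n + 1) : ℕ) : ℝ) ≤ ((Nat.nth Nat.Prime (n + 1 - 1) : ℕ) : ℝ) := h8
      _ ≤ ((n + 1 : ℕ) : ℝ) * Real.log ((n + 1 : ℕ) : ℝ) ^ C := h1
      _ ≤ (2 * n) * (2 * Real.log n) ^ C := by
          refine mul_le_mul ?_ (pow_le_pow_left₀ h6 h5 C) (pow_nonneg h6 C) (by linarith)
          push_cast
          linarith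
      _ = n * (2 ^ (C + 1) * Real.log n ^ C) := by ring
      _ ≤ n * (Real.log n * Real.log n ^ C) := by
          refine mul_le_mul_of_nonneg_left (mul_le_mul_of_nonneg_right h4 (pow_nonneg h7 C)) hpos.le
      _ = n * Real.log n ^ (C + 1) := by ring

end Pool.Agent.N607.HW
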